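import Pool.Agent.MP_826def_gt.PH.H5
import Pool.Agent.MP_826def_gt.PP.Alg
import Pool.Agent.MP_826def_gt.BG.Fm

/-!
The level algebra at a prime `p`.
-/

namespace Pool.Agent.MP_826def_gt.PH

open MU

theorem ml_eq (n : PP.S_Nm) {A : Type 1} [CommRing A] {b : ℕ → ℕ → A} (hb : PP.US b) {x : A}
    (hx : IsNilpotent x) (j : ℕ) : ml b j x = PP.nm b x j := by
  induction j with
  | zero => rfl
  | succ j ih =>
    rw [ml, PP.nm, ih]
    refine BG.fm_comm b hb.2 ?_ hx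
    rw [(n.nm_eq hb j x hx).1]
    exact (Commute.all _ _).isNilpotent_mul_right hx

theorem ser (n : PP.S_Nm) {U : Type 1} [CommRing U] {a : ℕ → ℕ → U} (ha : FG a) (p : ℕ) :
    Ser p a (PP.wn a p) := by
  refine ⟨n.wn_one ⟨ha.unit, ha.symm⟩ p, fun A _ φ x N hx => ?_⟩
  have hb := n.us φ ha
  have h1 := Finset.sum_range_succ (fun m => PP.wn (cf φ a) p m * x ^ m) N
  rw [Finset.sum_range_succ', n.wn_zero hb, hx, mul_zero, zero_mul, add_zero, add_zero] at h1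
  rw [ml_eq n hb ⟨N, hx⟩, (n.nm_eq hb p x ⟨N, hx⟩).1, n.twn_eq _ _ _ N hx, Finset.mul_sum]
  simp only [n.map_wn]
  rw [← h1]
  exact Finset.sum_congr rfl fun m _ => by ring

theorem sH (n : PP.S_Nm) : PP.S_H := by
  intro p hp r i₀ i₁ hne
  obtain ⟨c, hc⟩ := sHp BG.sFm p hp r i₀ i₁ hne
  refine ⟨c, fun L j' s _ hL hs U A N _ _ _ _ a φ X M _ _ ι η ρ π γ ha h1 h2 h3 hX h4 h5 h6 h7 hex =>
    hc L j' s hL (le_trans (Nat.mul_le_mul_left _ (Nat.add_le_add_left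
      (Nat.log_anti_left one_lt_two hp.two_le) _)) hs) U A N a (PP.wn a p) φ X M ι η ρ π γ ha
      (ser n ha p) h1 h2 h3 hX h4 h5 h6 h7 fun k => ?_⟩
  rw [ml_eq n (n.us φ ha) ⟨_, hX k⟩]
  exact hex k

end Pool.Agent.MP_826def_gt.PH
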