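import Pool.Agent.MP_826def_gt.PH.Spec
import Pool.Agent.MP_826def_gt.BH.H1a
import Pool.Agent.MP_826def_gt.BH.H1b

/-!
Formal linear combinations and the division by the level polynomials at a prime `p`.
-/

namespace Pool.Agent.MP_826def_gt.PH

open MU BH

noncomputable section

variable {A : Type 1} [CommRing A] {r : ℕ} {X : Fin r → A} {p : ℕ}

/-- `E` has an integral initial form of degree `d` that is not zero modulo `p`. -/
def Inp (p : ℕ) (X : Fin r → A) (E : A) (d : ℕ) : Prop :=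
  ∃ P : MvPolynomial (Fin r) ℤ, P.IsHomogeneous d ∧
    MvPolynomial.map (Int.castRingHom (ZMod p)) P ≠ 0 ∧ E - MvPolynomial.aeval X P ∈ mX X ^ (d + 1)

theorem Inp.mem {E : A} {d : ℕ} (h : Inp p X E d) : E ∈ mX X ^ d := by
  obtain ⟨P, h1, -, h3⟩ := h
  have := Ideal.add_mem _ (Ideal.pow_le_pow_right (Nat.le_succ d) h3) (aeval_mem (X := X) h1)
  simpa using this

variable [hp : Fact p.Prime]

theorem Inp.one : Inp p X 1 0 :=
  ⟨1, MvPolynomial.isHomogeneous_one _ _, by simp, by simp⟩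

theorem Inp.mul {E E' : A} {d d' : ℕ} (h : Inp p X E d) (h' : Inp p X E' d') :
    Inp p X (E * E') (d + d') := by
  have hE := h.mem
  obtain ⟨P, h1, h2, h3⟩ := h
  obtain ⟨P', h1', h2', h3'⟩ := h'
  refine ⟨P * P', h1.mul h1', by rw [map_mul]; exact mul_ne_zero h2 h2', ?_⟩
  have e : E * E' - MvPolynomial.aeval X (P * P') =
      E * (E' - MvPolynomial.aeval X P') +
        (E - MvPolynomial.aeval X P) * MvPolynomial.aeval X P' := by
    rw [map_mul]; ring
  rw [e]
  refine Ideal.add_mem _ ?_ ?_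
  · rw [add_assoc, pow_add]; exact Ideal.mul_mem_mul hE h3'
  · rw [add_right_comm, pow_add]; exact Ideal.mul_mem_mul h3 (aeval_mem h1')

theorem Inp.prod {ι : Type} (s : Finset ι) {E : ι → A} {d : ι → ℕ}
    (h : ∀ i ∈ s, Inp p X (E i) (d i)) : Inp p X (∏ i ∈ s, E i) (∑ i ∈ s, d i) := by
  classical
  induction s using Finset.induction_on with
  | empty => simpa using Inp.one
  | insert a s ha ih =>
    rw [Finset.prod_insert ha, Finset.sum_insert ha]
    exact (h a (Finset.mem_insert_self _ _)).mul (ih fun i hi => h i (Finset.mem_insert_of_mem hi))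

theorem Inp.pow {E : A} {d : ℕ} (h : Inp p X E d) (n : ℕ) : Inp p X (E ^ n) (n * d) := by
  simpa using Inp.prod (Finset.range n) (E := fun _ => E) (d := fun _ => d) fun _ _ => h

/-- The outcome of the division by the level polynomials. -/
structure Lvp (p : ℕ) (X : Fin r → A) (f w g : ℕ → A) (E Q Dl : A) (dE dD : ℕ) : Prop where
  hg : ∀ k < r, g k - w k ∈ mX X
  hQ : Q - w r ∈ mX X
  hu : ∀ k < r, ∃ u, u ∣ E ∧ E * (f k - u * g k) ∈ Ik f k
  h2 : E * (w 0 - Q * Dl) ∈ Ik f r
  iE : Inp p X E dE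
  iD : Inp p X Dl dD
  dE_le : dE ≤ p ^ r * p ^ r
  dD_pos : 1 ≤ dD
  dD_le : dD ≤ p ^ r

/-- Points `y t` with initial forms the linear forms over the field with `p` elements. -/
structure Ptp (p : ℕ) (X : Fin r → A) (f : ℕ → A) (y : (Fin r → ZMod p) → A)
    (P : Polynomial A) : Prop where
  emp : y 0 = 0
  sing : ∀ i, y (Pi.single i 1) = X i
  lin : ∀ t, y t - ∑ i, ((t i).val : A) * X i ∈ mX X ^ 2
  val : ∀ i : Fin r, P.eval (X i) = f i
  mem : ∀ (t : Fin r → ZMod p) (k : ℕ), (∀ i : Fin r, k ≤ i → t i = 0) → P.eval (y t) ∈ Ik f k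

/-- The `p`-fold multiple of the `k`-th variable. -/
def fp (p : ℕ) (b : ℕ → ℕ → A) (X : Fin r → A) (k : ℕ) : A :=
  if h : k < r then ml b p (X ⟨k, h⟩) else 0

theorem h1a (hF : S_Fm) {U : Type 1} [CommRing U] {a : ℕ → ℕ → U} {w : ℕ → U} (φ : U →+* A)
    (ha : FG a) (hw : Ser p a w) (hX : ∀ i, IsNilpotent (X i)) :
    ∃ (y : (Fin r → ZMod p) → A) (P : Polynomial A), Ptp p X (fp p (cf φ a) X) y P ∧
      ∀ k ≤ r, P.coeff (p ^ k) = φ (w (p ^ k)) := by
  classical
  have hu : ∀ i, cf φ a i 0 = if i = 1 then 1 else 0 := fun i => by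
    simp only [cf, ha.unit i]; split_ifs <;> simp
  have hs : ∀ i j, cf φ a i j = cf φ a j i := fun i j => by simp only [cf, ha.symm i j]
  let _ : CommMonoid (NP A) := npMon hF φ ha hu hs
  have hmul : ∀ x y : NP A, (x * y).val = Fm (cf φ a) x.val y.val := fun _ _ => rfl
  have hone : (1 : NP A).val = 0 := rfl
  have hB := fun x y : NP A => (hF A (cf φ a) x.val y.val).2.2.2 hu hs x.nil y.nil
  have hpow : ∀ (z : NP A) (n : ℕ), (z ^ n).val = ml (cf φ a) n z.val := by
    intro z n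
    induction n with
    | zero => rw [pow_zero, hone, ml]
    | succ n ih => rw [pow_succ, hmul, ih, ml]
  have hI2 : ∀ (I : Ideal A) (z z' : NP A), z.val ∈ I → z'.val ∈ I → (z * z').val ∈ I := by
    intro I z z' h h'
    obtain ⟨c, hc⟩ := (hB z z').2.2.2.1
    rw [hmul, eq_add_of_sub_eq hc]
    exact I.add_mem (I.mul_mem_right _ h) h'
  have hIp : ∀ (I : Ideal A) (z : NP A) (n : ℕ), z.val ∈ I → (z ^ n).val ∈ I := by
    intro I z n h
    induction n with
    | zero => rw [pow_zero, hone]; exact I.zero_mem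
    | succ n ih => rw [pow_succ]; exact hI2 I _ _ ih h
  have hI : ∀ (I : Ideal A) (z : Fin r → NP A), (∀ i, (z i).val ∈ I) → (∏ i, z i).val ∈ I :=
    fun I z h => Finset.prod_induction _ (fun u : NP A => u.val ∈ I) (hI2 I) I.zero_mem
      fun i _ => h i
  have hL2 : ∀ (z z' : NP A) (l l' : A), z.val ∈ mX X → z'.val ∈ mX X → z.val - l ∈ mX X ^ 2 →
      z'.val - l' ∈ mX X ^ 2 → (z * z').val - (l + l') ∈ mX X ^ 2 := by
    intro z z' l l' h h' k k'
    obtain ⟨c, hc⟩ := (hB z z').2.2.2.2.1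
    rw [show (z * z').val - (l + l') = z.val * z'.val * c + (z.val - l) + (z'.val - l') by
      rw [hmul, ← hc]; ring]
    refine Ideal.add_mem _ (Ideal.add_mem _ (Ideal.mul_mem_right _ _ ?_) k) k'
    rw [pow_two]
    exact Ideal.mul_mem_mul h h'
  let x : Fin r → NP A := fun i => ⟨X i, hX i⟩
  have hx : ∀ i, (x i).val = X i := fun _ => rfl
  have hLp : ∀ i (n : ℕ), (x i ^ n).val - (n : A) * X i ∈ mX X ^ 2 := by
    intro i n
    induction n with
    | zero => rw [pow_zero, hone]; simp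
    | succ n ih =>
      rw [pow_succ, Nat.cast_succ, add_mul, one_mul]
      exact hL2 _ _ _ _ (hIp _ _ _ (X_mem i)) (X_mem i) ih (by rw [hx]; simp)
  let y : (Fin r → ZMod p) → A := fun t => (∏ i, x i ^ (t i).val).val
  have hy : ∀ t, y t = (∏ i, x i ^ (t i).val).val := fun _ => rfl
  have hn : ∀ t, ∃ n, y t ^ n = 0 := fun t => (∏ i, x i ^ (t i).val).nil
  choose n hn using hn
  obtain ⟨N, hN1, hN⟩ : ∃ N, p ^ r < N ∧ ∀ t, y t ^ N = 0 :=
    ⟨p ^ r + 1 + Finset.univ.sup n, by omega, fun t =>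
      pow_eq_zero_of_le ((Finset.le_sup (f := n) (Finset.mem_univ t)).trans (Nat.le_add_left _ _))
        (hn t)⟩
  let P : Polynomial A := ∑ m ∈ Finset.range N, Polynomial.monomial m (φ (w m))
  have hP : ∀ t, P.eval (y t) = (∏ i, (x i ^ p) ^ (t i).val).val := by
    intro t
    simp only [← pow_mul, mul_comm p]
    simp only [pow_mul]
    rw [Finset.prod_pow, hpow, ← hy, hw.val A φ _ N (hN t)]
    simp only [P, Polynomial.eval_finsetSum, Polynomial.eval_monomial]
  have hfd : ∀ i : Fin r, (x i ^ p).val = fp p (cf φ a) X i := fun i => by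
    rw [hpow, hx, fp, dif_pos i.2]
  have hs1 : ∀ (z : Fin r → NP A) (i : Fin r),
      ∏ j, z j ^ ((Pi.single i 1 : Fin r → ZMod p) j).val = z i := fun z i => by
    rw [Finset.prod_eq_single i]
    · simp [ZMod.val_one]
    · intro j _ hj
      simp [Pi.single_eq_of_ne hj]
    · simp
  have hsing : ∀ i, y (Pi.single i 1) = X i := fun i => by rw [hy, hs1]
  refine ⟨y, P, ⟨?_, hsing, ?_, ?_, ?_⟩, ?_⟩
  · rw [hy]; simp [hone]
  · intro t
    have : ∀ S : Finset (Fin r), (∏ i ∈ S, x i ^ (t i).val).val ∈ mX X ∧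
        (∏ i ∈ S, x i ^ (t i).val).val - ∑ i ∈ S, ((t i).val : A) * X i ∈ mX X ^ 2 := by
      intro S
      induction S using Finset.induction_on with
      | empty => rw [Finset.prod_empty, hone]; simp
      | insert i S hi ih =>
        rw [Finset.prod_insert hi, Finset.sum_insert hi]
        exact ⟨hI2 _ _ _ (hIp _ _ _ (X_mem i)) ih.1,
          hL2 _ _ _ _ (hIp _ _ _ (X_mem i)) ih.1 (hLp i _) ih.2⟩
    exact (this _).2
  · intro i
    rw [← hsing, hP, hs1, hfd]
  · intro t k hk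
    rw [hP]
    refine hI _ _ fun i => ?_
    rcases le_or_gt k i with h | h
    · rw [hk i h, ZMod.val_zero, pow_zero, hone]; exact Ideal.zero_mem _
    · exact hIp _ _ _ (by rw [hfd]; exact mem_Ik h)
  · intro k hk
    have h2 : p ^ k ≤ p ^ r := Nat.pow_le_pow_right hp.out.pos hk
    simp only [P, Polynomial.finsetSum_coeff, Polynomial.coeff_monomial]
    rw [Finset.sum_eq_single (p ^ k)]
    · rw [if_pos rfl]
    · intro m _ hm
      rw [if_neg hm]
    · intro h
      exact absurd (Finset.mem_range.mpr (by omega)) h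

/-- The difference of two of the points has a linear initial form. -/
theorem inp_sub {y : (Fin r → ZMod p) → A}
    (hl : ∀ t, y t - ∑ i, ((t i).val : A) * X i ∈ mX X ^ 2) {s t : Fin r → ZMod p} (h : s ≠ t) :
    Inp p X (y s - y t) 1 := by
  classical
  have hh : ∀ t : Fin r → ZMod p, (∑ i, MvPolynomial.C ((t i).val : ℤ) * MvPolynomial.X i :
      MvPolynomial (Fin r) ℤ).IsHomogeneous 1 := fun t =>
    MvPolynomial.IsHomogeneous.sum _ _ _ fun i _ => MvPolynomial.isHomogeneous_C_mul_X _ _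
  refine ⟨_, (hh s).sub (hh t), ?_, ?_⟩
  · intro h0
    apply h
    ext i
    have h1 := congrArg (MvPolynomial.coeff (Finsupp.single i 1)) h0
    simp only [map_sub, map_sum, map_mul, MvPolynomial.map_X, MvPolynomial.map_C,
      MvPolynomial.coeff_sub, MvPolynomial.coeff_sum, MvPolynomial.coeff_C_mul,
      MvPolynomial.coeff_X, Finsupp.single_left_inj (one_ne_zero), mul_ite, mul_one, mul_zero,
      Finset.sum_ite_eq', Finset.mem_univ, if_true, MvPolynomial.coeff_zero] at h1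
    simpa [sub_eq_zero] using h1
  · have := (mX X ^ 2).sub_mem (hl s) (hl t)
    simp only [map_sub, map_sum, map_mul, MvPolynomial.aeval_X, map_natCast]
    rwa [sub_sub_sub_comm] at this

open Finset Polynomial in
theorem h1b {x : Fin r → A} {f : ℕ → A} {y : (Fin r → ZMod p) → A} {P : A[X]} (hr : 1 ≤ r)
    (hP : Ptp p x f y P) : ∃ (g : ℕ → A) (E Q Dl : A) (dE dD : ℕ),
      Lvp p x f (fun k => P.coeff (p ^ k)) g E Q Dl dE dD := by
  classical
  have hym : ∀ S, y S ∈ mX x := fun S => by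
    have h1 := Ideal.pow_le_self (I := mX x) two_ne_zero (hP.lin S)
    have h2 : ∑ i, ((S i).val : A) * x i ∈ mX x :=
      Ideal.sum_mem _ fun i _ => Ideal.mul_mem_left _ _ (X_mem i)
    simpa using (mX x).add_mem h1 h2
  let T : ℕ → Finset (Fin r → ZMod p) := fun k =>
    Fintype.piFinset fun i => if (i : ℕ) < k then univ else {0}
  have hmT : ∀ k t, t ∈ T k ↔ ∀ i : Fin r, k ≤ i → t i = 0 := fun k t => by
    rw [Fintype.mem_piFinset]
    refine forall_congr' fun i => ?_
    by_cases h : (i : ℕ) < k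
    · simp [h, h.not_ge]
    · simp [h, not_lt.1 h]
  have hT : ∀ k ≤ r, (T k).card = p ^ k := fun k hk => by
    rw [Fintype.card_piFinset]
    simp only [apply_ite Finset.card, card_univ, ZMod.card, card_singleton]
    rw [prod_ite, prod_const, prod_const_one, mul_one, Fin.card_filter_val_lt, min_eq_right hk]
  have hN : ∀ k, ∃ Q R : A[X], P = (∏ s ∈ T k, (Polynomial.X - C (y s))) * Q + R ∧
      (∀ z ∈ mX x, Q.eval z - P.coeff (T k).card ∈ mX x) ∧
      ∀ j, (∏ q ∈ (T k).offDiag, (y q.1 - y q.2)) * R.coeff j ∈ Ik f k := fun k =>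
    newton y (T k) (mX x) (Ik f k) P (fun s _ => hym s) fun s hs => hP.mem s k ((hmT k s).1 hs)
  choose Q R hQR hQ hR using hN
  set E : A := ∏ q ∈ (univ : Finset (Fin r → ZMod p)).offDiag, (y q.1 - y q.2) with hE
  have hER : ∀ k j, E * (R k).coeff j ∈ Ik f k := fun k j => by
    obtain ⟨c, hc⟩ : (∏ q ∈ (T k).offDiag, (y q.1 - y q.2)) ∣ E :=
      prod_dvd_prod_of_subset _ _ _ (offDiag_mono (subset_univ _))
    rw [hc, mul_right_comm]
    exact Ideal.mul_mem_right _ _ (hR k j)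
  have hcard : (univ : Finset (Fin r → ZMod p)).card = p ^ r := by simp
  refine ⟨fun k => if h : k < r then (Q k).eval (x ⟨k, h⟩) else 0, E, (Q r).eval 0,
    ∏ S ∈ (univ : Finset (Fin r → ZMod p)).erase 0, (y 0 - y S),
    ∑ _q ∈ (univ : Finset (Fin r → ZMod p)).offDiag, 1,
    ∑ _S ∈ (univ : Finset (Fin r → ZMod p)).erase 0, 1, ?_, ?_, ?_, ?_, ?_, ?_, ?_, ?_, ?_⟩
  · intro k hk
    rw [dif_pos hk, ← hT k hk.le]
    exact hQ k _ (X_mem _)
  · rw [← hT r le_rfl]
    exact hQ r _ (Ideal.zero_mem _)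
  · intro k hk
    refine ⟨∏ s ∈ T k, (x ⟨k, hk⟩ - y s), ?_, ?_⟩
    · have e1 : ∏ s ∈ T k, (x ⟨k, hk⟩ - y s) =
          ∏ q ∈ ({Pi.single ⟨k, hk⟩ 1} : Finset (Fin r → ZMod p)) ×ˢ T k, (y q.1 - y q.2) := by
        rw [prod_product, prod_singleton]
        simp only [hP.sing]
      rw [e1]
      refine prod_dvd_prod_of_subset _ _ _ fun q hq => ?_
      rw [mem_product, mem_singleton] at hq
      rw [mem_offDiag]
      refine ⟨mem_univ _, mem_univ _, fun h => ?_⟩
      have h2 := (hmT k _).1 hq.2 ⟨k, hk⟩ le_rfl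
      rw [← h, hq.1, Pi.single_eq_same] at h2
      exact one_ne_zero h2
    · rw [dif_pos hk]
      have h1 := hP.val ⟨k, hk⟩
      have h2 : f k - (∏ s ∈ T k, (x ⟨k, hk⟩ - y s)) * (Q k).eval (x ⟨k, hk⟩) =
          (R k).eval (x ⟨k, hk⟩) := by
        rw [hQR k, eval_add, eval_mul, eval_prod] at h1
        simp only [eval_sub, eval_X, eval_C] at h1
        rw [← h1]; ring
      rw [h2, eval_eq_sum_range, mul_sum]
      refine Ideal.sum_mem _ fun j _ => ?_
      rw [← mul_assoc]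
      exact Ideal.mul_mem_right _ _ (hER k j)
  · have hTr : T r = univ := by
      ext S
      simp only [hmT, mem_univ, iff_true]
      intro i hi
      exact absurd i.2 hi.not_gt
    have hc1 : ∀ q : A[X], (Polynomial.X * q).coeff 1 = q.coeff 0 := fun q => coeff_X_mul q 0
    have h1 : P.coeff (p ^ 0) - (Q r).eval 0 *
        ∏ S ∈ (univ : Finset (Fin r → ZMod p)).erase 0, (y 0 - y S) = (R r).coeff 1 := by
      conv_lhs => rw [hQR r, hTr, ← mul_prod_erase _ _ (mem_univ (0 : Fin r → ZMod p))]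
      rw [pow_zero, coeff_add, hP.emp, C_0, sub_zero, mul_assoc,
        hc1, coeff_zero_eq_eval_zero, eval_mul, eval_prod]
      simp only [eval_sub, eval_X, eval_C]
      ring
    rw [h1]
    exact hER r 1
  · exact Inp.prod _ fun q hq => inp_sub hP.lin (mem_offDiag.1 hq).2.2
  · exact Inp.prod _ fun S hS => inp_sub hP.lin (mem_erase.1 hS).1.symm
  · rw [sum_const, smul_eq_mul, mul_one, offDiag_card, hcard]
    exact Nat.sub_le _ _
  · rw [sum_const, smul_eq_mul, mul_one, card_erase_of_mem (mem_univ _), hcard]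
    have : 1 < p ^ r := Nat.one_lt_pow (by omega) hp.out.one_lt
    omega
  · rw [sum_const, smul_eq_mul, mul_one, card_erase_of_mem (mem_univ _), hcard]
    exact Nat.sub_le _ _

end

end Pool.Agent.MP_826def_gt.PH
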