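import Pool.Agent.MP_826def_gt.PH.H1
import Pool.Agent.MP_826def_gt.BH.H2
import Pool.Agent.MP_826def_gt.BH.H3
import Pool.Agent.MP_826def_gt.BH.H5
import Pool.Agent.MP_826def_gt.PP.H4p

/-!
The final contradiction of the level algebra at a prime `p`.
-/

namespace Pool.Agent.MP_826def_gt.PH

open Set MU BH

theorem sHp (hS : S_Fm) : S_Hp := by
  intro p hp r i₀ i₁ hne
  have := Fact.mk hp
  obtain ⟨c3, H3⟩ := h3 r
  refine ⟨(c3 + r + 1) * (p ^ r * p ^ r) + p ^ r, ?_⟩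
  intro L j' s hL hs U A N _ _ _ _ a w φ X M _ _ ι η ρ π γ hF hw hR h1 hN hX hA hM hι hρ hex h0
  set vs : ℕ → U := fun k => w (p ^ k) with hvs
  have v0 : vs 0 = p := by rw [hvs]; simpa using hw.one
  have hr : 1 ≤ r := i₀.pos
  obtain ⟨y, Φ, hP, hΦ⟩ := h1a hS φ hF hw fun i => ⟨_, hX i⟩
  have hΦ : ∀ k ≤ r, Φ.coeff (p ^ k) = φ (vs k) := hΦ
  obtain ⟨g, E, Q, Dl, dE, dD, lv⟩ := h1b hr hP
  have hg : ∀ i < r, g i - φ (vs i) ∈ mX X := fun i hi => hΦ i hi.le ▸ lv.hg i hi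
  obtain ⟨t1, t2⟩ := H3 A _ g E M π γ lv.hu (h2 U A N (M 0) φ r _ r X ι _ g hX hA hM hι hN hg).1
    fun k hk => by simpa only [fp, dif_pos hk] using hex ⟨k, hk⟩
  obtain ⟨ν, o, W, hν, ho, hW, hz⟩ := PP.Bin.main hp hne hL X hX
  set j := p ^ L * j' with hjd
  set Z := (∏ i, X i) ^ j with hZ
  have z1 : E ^ c3 * ((p : A) ^ ν * ((o : A) * Z + p * W)) ∈ Ik (fp p (cf φ a) X) r := by
    have := Submodule.mem_map_of_mem (f := ρ) (t2 _ h0)
    rw [Submodule.map_smul'', map_smul, hρ, hz] at this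
    exact (top_smul_eq _).le (Submodule.smul_mono le_rfl le_top this)
  have z2 : E ^ r * (E * ((p : A) - Q * Dl)) ∈ Ik g r := by
    have := t1 _ lv.h2
    rwa [hΦ 0 (by omega), v0, map_natCast] at this
  have z3 : E ^ (c3 + r + 1) * Dl ^ ν * (Q ^ ν * ((o : A) * Z + Q * Dl * W)) ∈ Ik g r := by
    obtain ⟨u, hu⟩ := sub_dvd_pow_sub_pow (p : A) (Q * Dl) ν
    obtain ⟨v, hv⟩ := sub_dvd_pow_sub_pow (p : A) (Q * Dl) (ν + 1)
    have e : E ^ (c3 + r + 1) * Dl ^ ν * (Q ^ ν * ((o : A) * Z + Q * Dl * W)) =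
        E * (E ^ r * (E ^ c3 * ((p : A) ^ ν * ((o : A) * Z + p * W)))) -
          E ^ c3 * (u * o * Z + v * W) * (E ^ r * (E * ((p : A) - Q * Dl))) := by
      have e1 : (p : A) ^ ν = (Q * Dl) ^ ν + ((p : A) - Q * Dl) * u := by rw [← hu]; ring
      have e2 : (p : A) ^ ν * p = (Q * Dl) ^ (ν + 1) + ((p : A) - Q * Dl) * v := by
        rw [← hv]; ring
      have e3 : (p : A) ^ ν * ((o : A) * Z + p * W) = p ^ ν * (o * Z) + p ^ ν * p * W := by ring
      rw [e3, e2, e1]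
      ring
    rw [e]
    exact Ideal.sub_mem _ (Ideal.mul_mem_left _ _ (t1 _ z1)) (Ideal.mul_mem_left _ _ z2)
  obtain ⟨P, hP1, hP2, hP3⟩ := (lv.iE.pow (c3 + r + 1)).mul (lv.iD.pow ν)
  set d := (c3 + r + 1) * dE + ν * dD with hd
  have hds : d ≤ s := by
    have a1 := Nat.mul_le_mul_left (c3 + r + 1) lv.dE_le
    have a2 := Nat.mul_le_mul hν lv.dD_le
    refine le_trans (Nat.add_le_add a1 a2) (le_trans ?_ hs)
    rw [mul_add, mul_one, mul_comm (Nat.log p _)]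
    exact Nat.add_le_add (Nat.le_add_right _ _) (Nat.mul_le_mul_right _ (Nat.le_add_left _ _))
  obtain ⟨e, he⟩ := MvPolynomial.ne_zero_iff.mp hP2
  rw [MvPolynomial.coeff_map] at he
  have hodd : ¬ (p : ℤ) ∣ P.coeff e := fun h => he ((ZMod.intCast_zmod_eq_zero_iff_dvd _ p).mpr h)
  have hed : ∑ i, e i = d := by
    rw [← hP1 (fun h => he (by rw [h, map_zero])), Finsupp.weight_apply,
      Finsupp.sum_fintype _ _ (by simp)]
    simp
  let J : Fin r →₀ ℕ := Finsupp.equivFunOnFinite.symm fun _ => j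
  have hJ : ∀ i, J i = j := fun _ => rfl
  have hm : MvPolynomial.aeval X (MvPolynomial.monomial J o) = (o : A) * Z := by
    rw [MvPolynomial.aeval_monomial, Finsupp.prod_fintype _ _ (by simp), hZ, ← Finset.prod_pow]
    simp [hJ]
  have hh : (MvPolynomial.monomial J o).IsHomogeneous (r * j) :=
    MvPolynomial.isHomogeneous_monomial _ (by
      rw [Finsupp.degree_eq_sum]; simp [hJ])
  have m1 : (o : A) * Z ∈ mX X ^ (r * j) := hm ▸ aeval_mem hh
  have m2 : (o : A) * Z + Q * Dl * W ∈ mX X ^ (r * j) :=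
    Ideal.add_mem _ m1 (Ideal.mul_mem_left _ _ hW)
  have m3 : Q ^ ν - φ (vs r) ^ ν ∈ mX X ^ 1 := by
    obtain ⟨u, hu⟩ := sub_dvd_pow_sub_pow Q (φ (vs r)) ν
    rw [hu, pow_one]
    exact Ideal.mul_mem_right _ _ (hΦ r le_rfl ▸ lv.hQ)
  have m4 : Dl ∈ mX X ^ 1 := Ideal.pow_le_pow_right lv.dD_pos lv.iD.mem
  have m5 := aeval_mem (X := X) hP1
  have fin := (h2 U A U A φ r _ r X (φ : U →+ A) _ g hX hA hA (fun u v => by simp)
    (fun k hk => hR k (by omega)) hg).2 (d + r * j) (P * MvPolynomial.monomial J o) (vs r ^ ν) _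
    (hP1.mul hh) ?_ ((top_smul_eq _).ge z3) (e + J) fun i => by
      have : e i ≤ ∑ i, e i := Finset.single_le_sum (fun _ _ => Nat.zero_le _) (Finset.mem_univ i)
      rw [Finsupp.add_apply, hJ]
      omega
  · rw [MvPolynomial.coeff_mul_monomial, top_smul_eq] at fin
    have hpz := Nat.prime_iff_prime_int.1 hp
    obtain ⟨t, t', ht⟩ := hpz.coprime_iff_not_dvd.2 fun h => (hpz.dvd_or_dvd h).elim hodd ho
    have f1 : vs r ^ ν ∈ Ik vs r := by
      have h2' : (p : U) ∈ Ik vs r := v0 ▸ mem_Ik hr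
      have := Ideal.add_mem _ (Ideal.mul_mem_right ((t : U) * vs r ^ ν) _ h2')
        (Ideal.mul_mem_left _ (t' : U) fin)
      have ht' := congrArg (Int.cast : ℤ → U) ht
      rw [zsmul_eq_mul] at this
      push_cast at this ht'
      rwa [show (p : U) * ((t : U) * vs r ^ ν) + (t' : U) * (((P.coeff e : ℤ) : U) * o * vs r ^ ν) =
        vs r ^ ν by linear_combination vs r ^ ν * ht'] at this
    have f2 : ∀ n, vs r ^ n ∈ Ik vs r → (1 : U) ∈ Ik vs r := by
      intro n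
      induction n with
      | zero => simp
      | succ n ih =>
        intro h
        refine ih ((top_smul_eq _).le (hR r (Nat.lt_succ_self r) _ ((top_smul_eq _).ge ?_)))
        rwa [smul_eq_mul, ← pow_succ']
    exact h1 (f2 ν f1)
  · rw [top_smul_eq, map_mul, hm]
    have e1 : E ^ (c3 + r + 1) * Dl ^ ν * (Q ^ ν * ((o : A) * Z + Q * Dl * W)) -
        (MvPolynomial.aeval X P * ((o : A) * Z)) • (φ : U →+ A) (vs r ^ ν) =
        Q ^ ν * ((E ^ (c3 + r + 1) * Dl ^ ν - MvPolynomial.aeval X P) *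
          ((o : A) * Z + Q * Dl * W)) +
        MvPolynomial.aeval X P * (Q ^ ν - φ (vs r) ^ ν) * ((o : A) * Z + Q * Dl * W) +
        φ (vs r) ^ ν * Q * (MvPolynomial.aeval X P * Dl * W) := by
      simp only [AddMonoidHom.coe_coe, map_pow, smul_eq_mul]
      ring
    rw [e1, add_right_comm d, pow_add]
    refine Ideal.add_mem _ (Ideal.add_mem _ (Ideal.mul_mem_left _ _ (Ideal.mul_mem_mul hP3 m2))
      (Ideal.mul_mem_mul ?_ m2)) (Ideal.mul_mem_left _ _ (Ideal.mul_mem_mul ?_ hW))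
    · rw [pow_add]; exact Ideal.mul_mem_mul m5 m3
    · rw [pow_add]; exact Ideal.mul_mem_mul m5 m4

end Pool.Agent.MP_826def_gt.PH
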