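import Pool.Agent.MP_826def_gt.BH.Spec

/-!
Specification of the level algebra at a prime `p`.
-/

namespace Pool.Agent.MP_826def_gt.PH

open Set MU BH

noncomputable section

/-- The formal multiples of `x`. -/
def ml {A : Type 1} [CommRing A] (b : ℕ → ℕ → A) : ℕ → A → A
  | 0, _ => 0
  | j + 1, x => Fm b (ml b j x) x

/-- The numbers `w m` are the coefficients of the `p`-series. -/
structure Ser {U : Type 1} [CommRing U] (p : ℕ) (a : ℕ → ℕ → U) (w : ℕ → U) : Prop where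
  one : w 1 = p
  val : ∀ (A : Type 1) [CommRing A] (φ : U →+* A) (x : A) (N : ℕ), x ^ N = 0 →
    ml (cf φ a) p x = ∑ m ∈ Finset.range N, φ (w m) * x ^ m

def S_Hp : Prop :=
  ∀ (p : ℕ), p.Prime → ∀ (r : ℕ) (i₀ i₁ : Fin r), i₀ ≠ i₁ → ∃ c : ℕ, ∀ (L j' s : ℕ),
    r * s < p ^ L → c * (1 + Nat.log p (2 * (p ^ L * j'))) ≤ s →
    ∀ (U A N : Type 1) [CommRing U] [CommRing A] [AddCommGroup N] [Module U N] (a : ℕ → ℕ → U)
      (w : ℕ → U) (φ : U →+* A) (X : Fin r → A) (M : ℕ → Type 1) [∀ k, AddCommGroup (M k)]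
      [∀ k, Module A (M k)] (ι : N →+ M 0) (η : A →ₗ[A] M 0) (ρ : M 0 →ₗ[A] A)
      (π : ∀ k, M k →ₗ[A] M (k + 1)) (γ : ∀ k, M (k + 1) →ₗ[A] M k),
      FG a → Ser p a w → Reg (fun k => w (p ^ k)) (r + 1) U →
      (1 : U) ∉ Ideal.span ((fun k => w (p ^ k)) '' Iio r) → Reg (fun k => w (p ^ k)) r N →
      (∀ i, X i ^ (p ^ L * j' + s + 1) = 0) → FreeOn X (p ^ L * j' + s + 1) (φ : U →+ A) →
      FreeOn X (p ^ L * j' + s + 1) ι → (∀ (u : U) n, ι (u • n) = φ u • ι n) →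
      (∀ x, ρ (η x) = x) →
      (∀ k : Fin r, Function.Exact (fun m : M k => ml (cf φ a) p (X k) • m) (π k) ∧
        Function.Exact (π k) (γ k) ∧
        Function.Exact (γ k) (fun m : M k => ml (cf φ a) p (X k) • m)) →
      up M π r (η (∏ i, (X i₀ - X i) ^ ex i₀ i₁ (p ^ L * j') i)) ≠ 0

end

end Pool.Agent.MP_826def_gt.PH
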